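import Pool.Agent.W798.SP.Stm2

set_option autoImplicit false

/-! Project SPY: assembly of the inequalities (second version). -/

open Finset
open scoped Classical Pointwise

namespace Pool.Agent.W940.SPY

open Pool.Agent.W904.AK Pool.Agent.W798.SP

theorem tAS2 (hCL : S_CL) (hTR : S_TR) (hHN : S_HN) (hJ : S_J) (hEX : S_EX2) (hFI : S_FI2) :
    S_AS2 := by
  intro A S T M hA hpos hT hM hMS hS hE
  obtain ⟨Ω, _, p, l, u, hB, hl0, hl1, hZ⟩ := hCL A S T M hpos hT hM hMS hS hE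
  have hTri := hTR A p l u (2 * T) hpos hB
  have hlaw := hB.law
  have h0 := hHN p (zz l) u (2 * T) hTri 0
  have h2 := hHN p (zz l) u (2 * T) hTri 2
  have hJ1 := hJ p (zz l) u (2 * T) hTri 0 2 p (zz l) (u 0) (u 2) (fun _ => ()) hlaw
    (fun _ => rfl) (fun _ => rfl)
  have e1 : CH p (fun ω => ((), zz l ω)) (fun ω => (u 0 ω, u 2 ω)) = CH p (zz l) (zz u) := by
    apply CH_congr hlaw
    · exact Det.mk' (fun t => t.2) fun ω _ => rfl
    · exact Det.mk' (fun t => ((), t)) fun ω _ => rfl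
    · refine Det.mk' (fun t => ![t.2.1, ((t.1.2 2 - t.1.2 3) * t.2.2 -
        (t.1.2 0 - t.1.2 3) * t.2.1) / (t.1.2 1 - t.1.2 3), t.2.2]) fun ω hω => ?_
      funext i
      fin_cases i
      · rfl
      · have hr := hB.rel ω hω
        have hne : l 1 ω - l 3 ω ≠ 0 := sub_ne_zero.2 (hB.ne ω hω 1)
        show u 1 ω = ((l 2 ω - l 3 ω) * u 2 ω - (l 0 ω - l 3 ω) * u 0 ω) / (l 1 ω - l 3 ω)
        rw [eq_div_iff hne]
        linarith
      · rfl
    · exact Det.mk' (fun t => (t.2 0, t.2 2)) fun ω _ => rfl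
  have e2 : CH p (fun ω => ((), zz l ω)) (fun ω => u 2 ω / u 0 ω) =
      CH p (zz l) (fun ω => u 0 ω / u 2 ω) := by
    apply CH_congr hlaw
    · exact Det.mk' (fun t => t.2) fun ω _ => rfl
    · exact Det.mk' (fun t => ((), t)) fun ω _ => rfl
    · exact Det.mk' (fun t => (t.2)⁻¹) fun ω _ => (inv_div _ _).symm
    · exact Det.mk' (fun t => (t.2)⁻¹) fun ω _ => (inv_div _ _).symm
  rw [e1, e2] at hJ1
  have hE0 := hEX A p l u (2 * T) 0 hA hpos hB (by decide)
  have hE1 := hEX A p l u (2 * T) 1 hA hpos hB (by decide)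
  have hF := hFI A p l u (2 * T) _ _ _ _ hpos hB hE0 hE1
  have c0 : l (Fin.castSucc (0 : Fin 3)) = l 0 := rfl
  have c1 : l (Fin.castSucc (1 : Fin 3)) = l 1 := rfl
  rw [c0, c1] at hF
  linarith

end Pool.Agent.W940.SPY
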